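import Mathlib

/-!
Proportional subspaces of `ℓ_1^m(ℓ_q^k)` and type 2.  Definitions and statements of the modules.
-/

set_option autoImplicit false

open Finset

namespace Pool.PT2

/-- Sign of a Boolean. -/
def sg (b : Bool) : ℝ := if b then 1 else -1

/-- Average over a finite type. -/
noncomputable def avg {α : Type} [Fintype α] (f : α → ℝ) : ℝ := (∑ a, f a) / Fintype.card α

/-- The norm of `ℓ_q^k`. -/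
noncomputable def lq (q : ℝ) {k : ℕ} (y : Fin k → ℝ) : ℝ := (∑ j, |y j| ^ q) ^ (1 / q)

/-- The norm of `ℓ_1^m(ℓ_q^k)`. -/
noncomputable def Nq (q : ℝ) {m k : ℕ} (x : Fin m × Fin k → ℝ) : ℝ :=
  ∑ a, lq q (fun j => x (a, j))

/-- Second Rademacher moment of a family. -/
noncomputable def rad2 {ι : Type} (N : (ι → ℝ) → ℝ) {l : ℕ} (x : Fin l → ι → ℝ) : ℝ :=
  avg (fun ε : Fin l → Bool => N (∑ i, sg (ε i) • x i) ^ 2)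

/-- `N` is a norm. -/
def IsNorm {ι : Type} (N : (ι → ℝ) → ℝ) : Prop :=
  (∀ x y, N (x + y) ≤ N x + N y) ∧ (∀ (c : ℝ) x, N (c • x) = |c| * N x) ∧ ∀ x, N x = 0 → x = 0

/-- Cotype `q` with constant `C`. -/
def Cotype {ι : Type} (N : (ι → ℝ) → ℝ) (q C : ℝ) : Prop :=
  ∀ (l : ℕ) (x : Fin l → ι → ℝ), (∑ i, N (x i) ^ q) ^ (1 / q) ≤ C * √(rad2 N x)

/-- The subspace `E` has type 2 with constant `T`. -/
def Type2 {ι : Type} (N : (ι → ℝ) → ℝ) (E : Submodule ℝ (ι → ℝ)) (T : ℝ) : Prop :=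
  ∀ (l : ℕ) (x : Fin l → ι → ℝ), (∀ i, x i ∈ E) → √(rad2 N x) ≤ T * √(∑ i, N (x i) ^ 2)

/-! ### Modules -/

/-- NRM: `Nq` is a norm, and comparison with the `ℓ_1` and `ℓ_2` norms. -/
def SNrm : Prop := ∀ (q : ℝ), 2 ≤ q → ∀ m k : ℕ,
  IsNorm (Nq q (m := m) (k := k)) ∧
  (∀ x : Fin m × Fin k → ℝ, 0 ≤ Nq q x ∧ Nq q x ≤ ∑ s, |x s|) ∧
  (∀ (x : Fin m × Fin k → ℝ) (J : Fin m → Fin k), ∑ a, |x (a, J a)| ≤ Nq q x) ∧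
  (∀ y : Fin k → ℝ, 0 ≤ lq q y ∧ lq q y ^ 2 ≤ ∑ j, y j ^ 2)

/-- KHI: Khinchine's inequality for the first moment. -/
def SKhi : Prop := ∀ (l : ℕ) (a : Fin l → ℝ),
  1 / 2 * √(∑ i, a i ^ 2) ≤ avg (fun ε : Fin l → Bool => |∑ i, sg (ε i) * a i|)

/-- MNK: two instances of Minkowski's inequality. -/
def SMnk : Prop := ∀ (q : ℝ), 1 ≤ q → ∀ (k l : ℕ),
  (∀ (α : Type) [Fintype α] [Nonempty α] (y : α → Fin k → ℝ),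
    lq q (fun j => avg (fun a => |y a j|)) ≤ avg (fun a => lq q (y a))) ∧
  ∀ (m : ℕ) (z : Fin m → Fin l → ℝ), (∀ a i, 0 ≤ z a i) →
    (∑ i, (∑ a, z a i) ^ q) ^ (1 / q) ≤ ∑ a, (∑ i, z a i ^ q) ^ (1 / q)

/-- COT: the space has cotype `q` with constant `2`. -/
def SCot : Prop := ∀ (q : ℝ), 2 ≤ q → ∀ m k : ℕ, Cotype (Nq q (m := m) (k := k)) q 2

/-- PRJ: the matrix of the orthogonal projection onto a subspace. -/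
def SPrj : Prop := ∀ (ι : Type) [Fintype ι] [DecidableEq ι] (E : Submodule ℝ (ι → ℝ)),
  ∃ P : ι → ι → ℝ, (∀ s, (fun t => P t s) ∈ E) ∧ (∀ s t, P s t = P t s) ∧
    (∀ s, ∑ t, P s t ^ 2 = P s s) ∧ (∀ s, P s s ≤ 1) ∧ ∑ s, P s s = Module.finrank ℝ E

/-- LOW: lower bound for the full sum. -/
def SLow : Prop := ∀ (q : ℝ), 2 ≤ q → ∀ (m k : ℕ), 1 ≤ k → ∀ (P : Fin m × Fin k → Fin m × Fin k → ℝ),
  (∑ s, P s s) / k ≤ avg (fun p : (Fin m → Fin k) × (Fin m → Bool) =>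
    Nq q (fun t => ∑ a, sg (p.2 a) * P t (a, p.1 a)))

/-- The colour class sum. -/
noncomputable def cs {m k N : ℕ} (Q : Fin m × Fin k → Fin m × Fin k → ℝ) (i : Fin N)
    (p : (Fin m → Fin k) × (Fin m → Fin N) × (Fin m → Bool)) : Fin m × Fin k → ℝ :=
  fun t => ∑ a, if p.2.1 a = i then sg (p.2.2 a) * Q t (a, p.1 a) else 0

/-- TYP: what type 2 gives. -/
def STyp : Prop := ∀ (q : ℝ), 2 ≤ q → ∀ (m k N : ℕ), 1 ≤ k → 1 ≤ N →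
  ∀ (P : Fin m × Fin k → Fin m × Fin k → ℝ) (E : Submodule ℝ (Fin m × Fin k → ℝ)) (T : ℝ),
  (∀ s, (fun t => P t s) ∈ E) → Type2 (Nq q) E T →
  avg (fun p : (Fin m → Fin k) × (Fin m → Bool) =>
    Nq q (fun t => ∑ a, sg (p.2 a) * P t (a, p.1 a))) ^ 2 ≤
    T ^ 2 * ∑ i : Fin N, avg (fun p => Nq q (cs P i p) ^ 2)

/-- MM2: second moment. -/
def SMm2 : Prop := ∀ (m k N : ℕ), 1 ≤ k → 1 ≤ N →
  ∀ (Q : Fin m × Fin k → Fin m × Fin k → ℝ) (i : Fin N) (t : Fin m × Fin k),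
  avg (fun p => cs Q i p t ^ 2) = (∑ s, Q t s ^ 2) / (N * k)

/-- MM4: fourth moment. -/
def SMm4 : Prop := ∀ (m k N : ℕ), 1 ≤ k → 1 ≤ N →
  ∀ (Q : Fin m × Fin k → Fin m × Fin k → ℝ) (i : Fin N) (t : Fin m × Fin k) (c : ℝ),
  (∀ s, Q t s ^ 2 ≤ c) → ∑ s, Q t s ^ 2 ≤ 1 →
  avg (fun p => cs Q i p t ^ 4) ≤ 3 / (N * k) ^ 2 + c / (N * k)

/-- INT: interpolation between `ℓ_2` and `ℓ_4`. -/
def SInt : Prop := ∀ q s : ℝ, 2 < q → 0 < s → ∃ C : ℝ, 0 < C ∧ ∀ (k : ℕ) (y : Fin k → ℝ),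
  lq q y ^ 2 ≤ s * (∑ j, y j ^ 2) + C * √(∑ j, y j ^ 4)

/-- UPM: the middle part. -/
def SUpm : Prop := ∀ (q : ℝ), 2 ≤ q → ∀ (m k N : ℕ), 1 ≤ k → 1 ≤ N →
  ∀ (Q : Fin m × Fin k → Fin m × Fin k → ℝ) (i : Fin N),
  N * avg (fun p => Nq q (cs Q i p) ^ 2) ≤ m / k * ∑ t, ∑ s, Q t s ^ 2

/-- UPS: the small part. -/
def SUps : Prop := ∀ q s : ℝ, 2 < q → 0 < s → ∃ C : ℝ, 0 < C ∧ ∀ (m k N : ℕ), 1 ≤ k → 1 ≤ N →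
  ∀ (Q : Fin m × Fin k → Fin m × Fin k → ℝ) (i : Fin N) (α : ℝ), 0 ≤ α →
  (∀ t s, Q t s ^ 2 ≤ α ^ 2 / N) → (∀ t, ∑ s, Q t s ^ 2 ≤ 1) →
  N * avg (fun p => Nq q (cs Q i p) ^ 2) ≤ (m : ℝ) ^ 2 * (s + C * √(3 / k + α ^ 2))

/-- UPL: the large part. -/
def SUpl : Prop := ∀ (q : ℝ), 2 ≤ q → ∀ (m k N : ℕ), 1 ≤ k → 1 ≤ N → N ≤ m →
  ∀ (Q : Fin m × Fin k → Fin m × Fin k → ℝ) (i : Fin N) (β : ℝ), 0 < β →
  (∀ t s, Q t s = 0 ∨ β ^ 2 / N ≤ Q t s ^ 2) → (∀ s, ∑ t, Q t s ^ 2 ≤ 1) →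
  N * avg (fun p => Nq q (cs Q i p) ^ 2) ≤ (m : ℝ) ^ 2 * (2 / β ^ 2)

/-- The part of a matrix with squares of entries in `[u, v)`. -/
noncomputable def band {ι : Type} (P : ι → ι → ℝ) (u v : ℝ) : ι → ι → ℝ :=
  fun t s => if u ≤ P t s ^ 2 ∧ P t s ^ 2 < v then P t s else 0

/-- PIG: pigeonhole over the scales `N = B^i`. -/
def SPig : Prop := ∀ (α β : ℝ) (B : ℕ), 0 < α → α < β → β ^ 2 ≤ B * α ^ 2 → ∀ (M : ℕ), 1 ≤ M →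
  ∀ (ι : Type) [Fintype ι] [DecidableEq ι] (P : ι → ι → ℝ), (∀ t, ∑ s, P t s ^ 2 ≤ 1) →
  ∃ i, i < M ∧ ∑ t, ∑ s, band P (α ^ 2 / (B : ℝ) ^ i) (β ^ 2 / (B : ℝ) ^ i) t s ^ 2 ≤
    (Fintype.card ι : ℝ) / M

/-- UPP: all parts together. -/
def SUpp : Prop := ∀ q s : ℝ, 2 < q → 0 < s → ∃ C : ℝ, 0 < C ∧ ∀ (m k N : ℕ), 1 ≤ k → 1 ≤ N →
  N ≤ m → ∀ (P : Fin m × Fin k → Fin m × Fin k → ℝ) (i : Fin N) (α β : ℝ), 0 < α → α < β →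
  (∀ s t, P s t = P t s) → (∀ t, ∑ s, P t s ^ 2 ≤ 1) →
  N * avg (fun p => Nq q (cs P i p) ^ 2) ≤ 3 * ((m : ℝ) ^ 2 * (s + C * √(3 / k + α ^ 2)) +
    m / k * (∑ t, ∑ s, band P (α ^ 2 / N) (β ^ 2 / N) t s ^ 2) + (m : ℝ) ^ 2 * (2 / β ^ 2))

/-- FIN: the final statement. -/
def SFin : Prop := ∀ q θ T : ℝ, 2 < q → 0 < θ → ∃ r : ℕ, ∀ m k : ℕ, r ≤ m → r ≤ k →
  ∀ E : Submodule ℝ (Fin m × Fin k → ℝ), θ * (m * k) ≤ Module.finrank ℝ E →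
  ¬ Type2 (Nq q (m := m) (k := k)) E T

end Pool.PT2
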