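import Pool.Agent.H37.PT2.Defs

set_option autoImplicit false

open Finset

namespace Pool.PT2

theorem sFin (hPrj : SPrj) (hLow : SLow) (hTyp : STyp) (hPig : SPig) (hUpp : SUpp) : SFin := by
  intro q θ T hq hθ
  set u : ℝ := θ ^ 2 / (3 * (T ^ 2 + 1)) / 5 with hu
  have hu0 : 0 < u := by positivity
  obtain ⟨C, hC, hU⟩ := hUpp q u hq hu0
  set β : ℝ := √(2 / u) with hβ
  have hβ0 : 0 < β := Real.sqrt_pos.2 (by positivity)
  have hβ2 : β ^ 2 = 2 / u := Real.sq_sqrt (by positivity)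
  set α : ℝ := min (u / (2 * C)) (β / 2) with hα
  have hα0 : 0 < α := lt_min (by positivity) (by positivity)
  have hαβ : α < β := lt_of_le_of_lt (min_le_right _ _) (by linarith)
  have hα2 : α ^ 2 ≤ u ^ 2 / (4 * C ^ 2) := by
    have h1 : α ≤ u / (2 * C) := min_le_left _ _
    calc α ^ 2 ≤ (u / (2 * C)) ^ 2 := pow_le_pow_left₀ hα0.le h1 2
      _ = u ^ 2 / (4 * C ^ 2) := by ring
  set B : ℕ := ⌈β ^ 2 / α ^ 2⌉₊ with hB
  have hB1 : β ^ 2 ≤ B * α ^ 2 := by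
    have := Nat.le_ceil (β ^ 2 / α ^ 2)
    rwa [div_le_iff₀ (by positivity)] at this
  have hB0 : 1 ≤ B := by
    rw [hB]
    exact Nat.one_le_iff_ne_zero.2 (Nat.ceil_pos.2 (by positivity)).ne'
  set M : ℕ := ⌈1 / u⌉₊ with hM
  have hM1 : 1 / u ≤ M := Nat.le_ceil _
  have hM0 : 1 ≤ M := Nat.one_le_iff_ne_zero.2 (Nat.ceil_pos.2 (by positivity)).ne'
  have hMr : (0 : ℝ) < M := by exact_mod_cast hM0
  have hMu : 1 / (M : ℝ) ≤ u := by
    rw [div_le_iff₀ hMr]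
    rw [div_le_iff₀ hu0] at hM1
    linarith
  set k0 : ℕ := ⌈12 * C ^ 2 / u ^ 2⌉₊ with hk0
  refine ⟨max (B ^ M) (max k0 1), ?_⟩
  intro m k hm hk E hE hT
  have hmB : B ^ M ≤ m := (le_max_left _ _).trans hm
  have hm1 : 1 ≤ m := (le_max_right _ _).trans ((le_max_right _ _).trans hm)
  have hk1 : 1 ≤ k := (le_max_right _ _).trans ((le_max_right _ _).trans hk)
  have hk2 : k0 ≤ k := (le_max_left _ _).trans ((le_max_right _ _).trans hk)
  have hmr : (0 : ℝ) < m := by exact_mod_cast hm1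
  have hkr : (0 : ℝ) < k := by exact_mod_cast hk1
  have h3k : 3 / (k : ℝ) ≤ u ^ 2 / (4 * C ^ 2) := by
    have h1 : 12 * C ^ 2 / u ^ 2 ≤ k := (Nat.le_ceil _).trans (by exact_mod_cast hk2)
    rw [div_le_iff₀ (by positivity)] at h1
    rw [div_le_div_iff₀ hkr (by positivity)]
    nlinarith
  have hroot : C * √(3 / k + α ^ 2) ≤ u := by
    have h1 : 3 / (k : ℝ) + α ^ 2 ≤ (u / C) ^ 2 := by
      have : (u / C) ^ 2 = 4 * (u ^ 2 / (4 * C ^ 2)) := by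
        field_simp
      rw [this]
      have : 0 ≤ u ^ 2 / (4 * C ^ 2) := by positivity
      linarith
    have h2 : √(3 / k + α ^ 2) ≤ u / C := by
      rw [← Real.sqrt_sq (show (0 : ℝ) ≤ u / C by positivity)]
      exact Real.sqrt_le_sqrt h1
    calc C * √(3 / k + α ^ 2) ≤ C * (u / C) := mul_le_mul_of_nonneg_left h2 hC.le
      _ = u := by field_simp
  obtain ⟨P, hP1, hP2, hP3, hP4, hP5⟩ := hPrj (Fin m × Fin k) E
  have hrow : ∀ t, ∑ s, P t s ^ 2 ≤ 1 := fun t => (hP3 t).le.trans (hP4 t)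
  obtain ⟨i, hi, hband⟩ := hPig α β B hα0 hαβ hB1 M hM0 (Fin m × Fin k) P hrow
  set N : ℕ := B ^ i with hN
  have hN1 : 1 ≤ N := Nat.one_le_pow _ _ hB0
  have hNm : N ≤ m := (Nat.pow_le_pow_right hB0 hi.le).trans hmB
  have hNr : (0 : ℝ) < N := by exact_mod_cast hN1
  have hNc : ((N : ℕ) : ℝ) = (B : ℝ) ^ i := by
    rw [hN]
    push_cast
    rfl
  have hcard : (Fintype.card (Fin m × Fin k) : ℝ) = m * k := by
    simp
  rw [hcard, ← hNc] at hband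
  set R : ℝ := 3 * ((m : ℝ) ^ 2 * (u + C * √(3 / k + α ^ 2)) +
    m / k * (∑ t, ∑ s, band P (α ^ 2 / N) (β ^ 2 / N) t s ^ 2) + (m : ℝ) ^ 2 * (2 / β ^ 2)) with hR
  have hcol : ∀ c : Fin N, avg (fun p => Nq q (cs P c p) ^ 2) ≤ R / N := by
    intro c
    have := hU m k N hk1 hN1 hNm P c α β hα0 hαβ hP2 hrow
    rw [le_div_iff₀ hNr]
    linarith
  have hsum : ∑ c : Fin N, avg (fun p => Nq q (cs P c p) ^ 2) ≤ R := by
    calc ∑ c : Fin N, avg (fun p => Nq q (cs P c p) ^ 2) ≤ ∑ _c : Fin N, R / N :=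
          Finset.sum_le_sum fun c _ => hcol c
      _ = R := by
          rw [Finset.sum_const, Finset.card_univ, Fintype.card_fin, nsmul_eq_mul]
          field_simp
  have hty := hTyp q hq.le m k N hk1 hN1 P E T hP1 hT
  have hlow := hLow q hq.le m k hk1 P
  rw [hP5] at hlow
  have hlow2 : θ * m ≤ avg (fun p : (Fin m → Fin k) × (Fin m → Bool) =>
      Nq q (fun t => ∑ a, sg (p.2 a) * P t (a, p.1 a))) := by
    refine le_trans ?_ hlow
    rw [le_div_iff₀ hkr]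
    linarith
  have hRle : R ≤ (m : ℝ) ^ 2 * (3 * (4 * u)) := by
    have h1 : (m : ℝ) / k * (∑ t, ∑ s, band P (α ^ 2 / N) (β ^ 2 / N) t s ^ 2) ≤
        (m : ℝ) ^ 2 * u := by
      calc (m : ℝ) / k * (∑ t, ∑ s, band P (α ^ 2 / N) (β ^ 2 / N) t s ^ 2)
          ≤ (m : ℝ) / k * ((m : ℝ) * k / M) := mul_le_mul_of_nonneg_left hband (by positivity)
        _ = (m : ℝ) ^ 2 * (1 / M) := by field_simp
        _ ≤ (m : ℝ) ^ 2 * u := mul_le_mul_of_nonneg_left hMu (by positivity)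
    have h2 : 2 / β ^ 2 = u := by
      rw [hβ2]
      field_simp
    have hm2 : (0 : ℝ) < (m : ℝ) ^ 2 := by positivity
    rw [hR, h2]
    nlinarith
  have hfin : (θ * m) ^ 2 ≤ T ^ 2 * ((m : ℝ) ^ 2 * (3 * (4 * u))) := by
    calc (θ * m) ^ 2 ≤ avg (fun p : (Fin m → Fin k) × (Fin m → Bool) =>
          Nq q (fun t => ∑ a, sg (p.2 a) * P t (a, p.1 a))) ^ 2 :=
          pow_le_pow_left₀ (by positivity) hlow2 2
      _ ≤ T ^ 2 * ∑ c : Fin N, avg (fun p => Nq q (cs P c p) ^ 2) := hty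
      _ ≤ T ^ 2 * R := mul_le_mul_of_nonneg_left hsum (by positivity)
      _ ≤ T ^ 2 * ((m : ℝ) ^ 2 * (3 * (4 * u))) := mul_le_mul_of_nonneg_left hRle (by positivity)
  have hθu : θ ^ 2 = 15 * (T ^ 2 + 1) * u := by
    rw [hu]
    field_simp
    ring
  have hm2 : (0 : ℝ) < (m : ℝ) ^ 2 := by positivity
  have h4 : (θ * m) ^ 2 = (m : ℝ) ^ 2 * (15 * (T ^ 2 + 1) * u) := by
    rw [mul_pow, hθu]
    ring
  rw [h4] at hfin
  have h5 : (0 : ℝ) < (m : ℝ) ^ 2 * u := by positivity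
  nlinarith [mul_nonneg (sq_nonneg T) h5.le]

end Pool.PT2
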