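import Pool.Agent.H37.PT2.Defs

set_option autoImplicit false

open Finset

namespace Pool.PT2

theorem PIG_disj37 {α β p : ℝ} {B : ℕ} (hα : 0 < α) (hαβ : α < β) (hB : β ^ 2 ≤ B * α ^ 2)
    {i j : ℕ} (hij : i < j) (h1 : α ^ 2 / (B : ℝ) ^ i ≤ p ^ 2) (h2 : p ^ 2 < β ^ 2 / (B : ℝ) ^ j) :
    False := by
  have hB1 : (1 : ℝ) ≤ B := by
    by_contra h
    push Not at h
    have : (B : ℝ) * α ^ 2 < 1 * α ^ 2 := by
      apply mul_lt_mul_of_pos_right h (by positivity)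
    nlinarith
  have hB0 : (0 : ℝ) < B := by linarith
  have h3 : β ^ 2 / (B : ℝ) ^ j ≤ α ^ 2 / (B : ℝ) ^ i := by
    rw [div_le_div_iff₀ (by positivity) (by positivity)]
    have h4 : (B : ℝ) ^ (i + 1) ≤ (B : ℝ) ^ j := pow_le_pow_right₀ hB1 hij
    calc β ^ 2 * (B : ℝ) ^ i ≤ (B * α ^ 2) * (B : ℝ) ^ i := by gcongr
      _ = α ^ 2 * (B : ℝ) ^ (i + 1) := by ring
      _ ≤ α ^ 2 * (B : ℝ) ^ j := by gcongr
  linarith

theorem PIG_pt37 {α β : ℝ} {B : ℕ} (hα : 0 < α) (hαβ : α < β) (hB : β ^ 2 ≤ B * α ^ 2) (M : ℕ)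
    (p : ℝ) : ∑ i ∈ range M, (if α ^ 2 / (B : ℝ) ^ i ≤ p ^ 2 ∧ p ^ 2 < β ^ 2 / (B : ℝ) ^ i
      then p else 0) ^ 2 ≤ p ^ 2 := by
  by_cases h : ∃ i ∈ range M, α ^ 2 / (B : ℝ) ^ i ≤ p ^ 2 ∧ p ^ 2 < β ^ 2 / (B : ℝ) ^ i
  · obtain ⟨i, hi, h1, h2⟩ := h
    rw [Finset.sum_eq_single_of_mem i hi]
    · rw [if_pos ⟨h1, h2⟩]
    · intro j _ hji
      rw [if_neg]
      · simp
      · rintro ⟨h3, h4⟩
        rcases lt_or_gt_of_ne hji with h | h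
        · exact PIG_disj37 hα hαβ hB h h3 h2
        · exact PIG_disj37 hα hαβ hB h h1 h4
  · push Not at h
    rw [Finset.sum_eq_zero]
    · positivity
    · intro i hi
      rw [if_neg]
      · simp
      · rintro ⟨h1, h2⟩
        exact absurd h2 (not_lt.2 (h i hi h1))

theorem sPig : SPig := by
  intro α β B hα hαβ hB M hM ι _ _ P hP
  by_contra hcon
  push Not at hcon
  have hM0 : (0 : ℝ) < M := by exact_mod_cast hM
  have h1 : (Fintype.card ι : ℝ) < ∑ i ∈ range M, ∑ t, ∑ s,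
      band P (α ^ 2 / (B : ℝ) ^ i) (β ^ 2 / (B : ℝ) ^ i) t s ^ 2 := by
    have : ∑ i ∈ range M, (Fintype.card ι : ℝ) / M < ∑ i ∈ range M, ∑ t, ∑ s,
      band P (α ^ 2 / (B : ℝ) ^ i) (β ^ 2 / (B : ℝ) ^ i) t s ^ 2 := by
      apply Finset.sum_lt_sum_of_nonempty
      · exact ⟨0, mem_range.2 hM⟩
      · intro i hi
        exact hcon i (mem_range.1 hi)
    rw [sum_const, card_range, nsmul_eq_mul, mul_div_cancel₀ _ hM0.ne'] at this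
    exact this
  have h2 : ∑ i ∈ range M, ∑ t, ∑ s,
      band P (α ^ 2 / (B : ℝ) ^ i) (β ^ 2 / (B : ℝ) ^ i) t s ^ 2 ≤ ∑ t, ∑ s, P t s ^ 2 := by
    rw [Finset.sum_comm]
    refine Finset.sum_le_sum fun t _ => ?_
    rw [Finset.sum_comm]
    refine Finset.sum_le_sum fun s _ => ?_
    exact PIG_pt37 hα hαβ hB M (P t s)
  have h3 : ∑ t, ∑ s, P t s ^ 2 ≤ (Fintype.card ι : ℝ) := by
    calc ∑ t, ∑ s, P t s ^ 2 ≤ ∑ t : ι, (1 : ℝ) := Finset.sum_le_sum fun t _ => hP t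
      _ = Fintype.card ι := by simp
  linarith

end Pool.PT2
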