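import Pool.Agent.H37.PT2.Defs

set_option autoImplicit false

open Finset

namespace Pool.PT2

/-- The part of a matrix with squares of entries below `u`. -/
noncomputable def UPP_lo37 {ι : Type} (P : ι → ι → ℝ) (u : ℝ) : ι → ι → ℝ :=
  fun t s => if P t s ^ 2 < u then P t s else 0

/-- The part of a matrix with squares of entries at least `v`. -/
noncomputable def UPP_hi37 {ι : Type} (P : ι → ι → ℝ) (v : ℝ) : ι → ι → ℝ :=
  fun t s => if v ≤ P t s ^ 2 then P t s else 0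

theorem UPP_split37 {ι : Type} (P : ι → ι → ℝ) {u v : ℝ} (huv : u ≤ v) (t s : ι) :
    P t s = UPP_lo37 P u t s + band P u v t s + UPP_hi37 P v t s := by
  unfold UPP_lo37 band UPP_hi37
  by_cases h1 : P t s ^ 2 < u
  · rw [if_pos h1, if_neg (fun h => absurd h.1 (not_le.2 h1)),
      if_neg (not_le.2 (h1.trans_le huv))]
    ring
  · by_cases h2 : P t s ^ 2 < v
    · rw [if_neg h1, if_pos ⟨not_lt.1 h1, h2⟩, if_neg (not_le.2 h2)]
      ring
    · rw [if_neg h1, if_neg (fun h => h2 h.2), if_pos (not_lt.1 h2)]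
      ring

theorem UPP_cs37 {m k N : ℕ} (P Q₁ Q₂ Q₃ : Fin m × Fin k → Fin m × Fin k → ℝ)
    (h : ∀ t s, P t s = Q₁ t s + Q₂ t s + Q₃ t s) (i : Fin N)
    (p : (Fin m → Fin k) × (Fin m → Fin N) × (Fin m → Bool)) :
    cs P i p = cs Q₁ i p + cs Q₂ i p + cs Q₃ i p := by
  funext t
  simp only [cs, Pi.add_apply]
  rw [← Finset.sum_add_distrib, ← Finset.sum_add_distrib]
  refine Finset.sum_congr rfl fun a _ => ?_
  split_ifs
  · rw [h]; ring
  · ring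

theorem UPP_avg37 {α : Type} [Fintype α] (f g₁ g₂ g₃ : α → ℝ)
    (h : ∀ a, f a ≤ 3 * (g₁ a + g₂ a + g₃ a)) : avg f ≤ 3 * (avg g₁ + avg g₂ + avg g₃) := by
  unfold avg
  rw [← add_div, ← add_div, ← mul_div_assoc, ← Finset.sum_add_distrib, ← Finset.sum_add_distrib,
    Finset.mul_sum]
  apply div_le_div_of_nonneg_right _ (by positivity)
  exact Finset.sum_le_sum fun a _ => h a

theorem sUpp (hNRM : SNrm) (hUPM : SUpm) (hUPS : SUps) (hUPL : SUpl) : SUpp := by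
  intro q s hq hs
  obtain ⟨C, hC, hC2⟩ := hUPS q s hq hs
  refine ⟨C, hC, ?_⟩
  intro m k N hk hN hNm P i α β hα hαβ hsym hrow
  have hβ : 0 < β := hα.trans hαβ
  have hN0 : (0 : ℝ) < N := by exact_mod_cast hN
  have huv : α ^ 2 / (N : ℝ) ≤ β ^ 2 / N := by
    apply div_le_div_of_nonneg_right _ hN0.le
    nlinarith
  set Q₁ := UPP_lo37 P (α ^ 2 / N) with hQ1
  set Q₂ := band P (α ^ 2 / (N : ℝ)) (β ^ 2 / N) with hQ2
  set Q₃ := UPP_hi37 P (β ^ 2 / N) with hQ3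
  have hsplit : ∀ t s, P t s = Q₁ t s + Q₂ t s + Q₃ t s := fun t s => UPP_split37 P huv t s
  have hlo : ∀ t s, Q₁ t s ^ 2 ≤ P t s ^ 2 := by
    intro t s
    rw [hQ1]; unfold UPP_lo37
    split_ifs
    · exact le_rfl
    · simp only [ne_eq, OfNat.ofNat_ne_zero, not_false_eq_true, zero_pow]; positivity
  have hhi : ∀ t s, Q₃ t s ^ 2 ≤ P t s ^ 2 := by
    intro t s
    rw [hQ3]; unfold UPP_hi37
    split_ifs
    · exact le_rfl
    · simp only [ne_eq, OfNat.ofNat_ne_zero, not_false_eq_true, zero_pow]; positivity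
  have h1 : N * avg (fun p => Nq q (cs Q₁ i p) ^ 2) ≤
      (m : ℝ) ^ 2 * (s + C * √(3 / k + α ^ 2)) := by
    apply hC2 m k N hk hN Q₁ i α hα.le
    · intro t s
      rw [hQ1]; unfold UPP_lo37
      split_ifs with h
      · exact h.le
      · simp only [ne_eq, OfNat.ofNat_ne_zero, not_false_eq_true, zero_pow]; positivity
    · intro t
      exact (Finset.sum_le_sum fun s _ => hlo t s).trans (hrow t)
  have h2 : N * avg (fun p => Nq q (cs Q₂ i p) ^ 2) ≤ m / k * ∑ t, ∑ s, Q₂ t s ^ 2 :=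
    hUPM q hq.le m k N hk hN Q₂ i
  have h3 : N * avg (fun p => Nq q (cs Q₃ i p) ^ 2) ≤ (m : ℝ) ^ 2 * (2 / β ^ 2) := by
    apply hUPL q hq.le m k N hk hN hNm Q₃ i β hβ
    · intro t s
      rw [hQ3]; unfold UPP_hi37
      split_ifs with h
      · exact Or.inr h
      · exact Or.inl rfl
    · intro s
      calc ∑ t, Q₃ t s ^ 2 ≤ ∑ t, P t s ^ 2 := Finset.sum_le_sum fun t _ => hhi t s
        _ = ∑ t, P s t ^ 2 := Finset.sum_congr rfl fun t _ => by rw [hsym t s]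
        _ ≤ 1 := hrow s
  obtain ⟨⟨htri, -, -⟩, hnn, -, -⟩ := hNRM q hq.le m k
  have h4 : avg (fun p => Nq q (cs P i p) ^ 2) ≤ 3 * (avg (fun p => Nq q (cs Q₁ i p) ^ 2) +
      avg (fun p => Nq q (cs Q₂ i p) ^ 2) + avg (fun p => Nq q (cs Q₃ i p) ^ 2)) := by
    apply UPP_avg37
    intro p
    rw [UPP_cs37 P Q₁ Q₂ Q₃ hsplit i p]
    have a1 := htri (cs Q₁ i p + cs Q₂ i p) (cs Q₃ i p)
    have a2 := htri (cs Q₁ i p) (cs Q₂ i p)
    have b0 := (hnn (cs Q₁ i p + cs Q₂ i p + cs Q₃ i p)).1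
    have a3 : Nq q (cs Q₁ i p + cs Q₂ i p + cs Q₃ i p) ≤
        Nq q (cs Q₁ i p) + Nq q (cs Q₂ i p) + Nq q (cs Q₃ i p) := by linarith
    calc Nq q (cs Q₁ i p + cs Q₂ i p + cs Q₃ i p) ^ 2
        ≤ (Nq q (cs Q₁ i p) + Nq q (cs Q₂ i p) + Nq q (cs Q₃ i p)) ^ 2 :=
          pow_le_pow_left₀ b0 a3 2
      _ ≤ _ := by
        nlinarith [sq_nonneg (Nq q (cs Q₁ i p) - Nq q (cs Q₂ i p)),
          sq_nonneg (Nq q (cs Q₂ i p) - Nq q (cs Q₃ i p)),
          sq_nonneg (Nq q (cs Q₁ i p) - Nq q (cs Q₃ i p))]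
  calc N * avg (fun p => Nq q (cs P i p) ^ 2)
      ≤ N * (3 * (avg (fun p => Nq q (cs Q₁ i p) ^ 2) +
        avg (fun p => Nq q (cs Q₂ i p) ^ 2) + avg (fun p => Nq q (cs Q₃ i p) ^ 2))) := by gcongr
    _ = 3 * (N * avg (fun p => Nq q (cs Q₁ i p) ^ 2) +
        N * avg (fun p => Nq q (cs Q₂ i p) ^ 2) + N * avg (fun p => Nq q (cs Q₃ i p) ^ 2)) := by
      ring
    _ ≤ _ := by
      have := add_le_add (add_le_add h1 h2) h3
      linarith

end Pool.PT2
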