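import Pool.Agent.H2.PT2.INT
import Pool.Agent.H2.PT2.MM2
import Pool.Agent.H33.PT2.COT
import Pool.Agent.H33.PT2.MM4
import Pool.Agent.H33.PT2.UPL
import Pool.Agent.H33.PT2.UPS
import Pool.Agent.H37.PT2.FIN
import Pool.Agent.H37.PT2.PIG
import Pool.Agent.H37.PT2.UPP
import Pool.Agent.H45.PT2.KHI
import Pool.Agent.H45.PT2.MNK
import Pool.Agent.H45.PT2.PRJ
import Pool.Agent.H61.PT2.LOW
import Pool.Agent.H61.PT2.UPM
import Pool.Agent.H83.PT2.NRM
import Pool.Agent.H83.PT2.TYP

/-!
Proportional subspaces of mixed norm spaces: composition of the modules.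
-/

set_option autoImplicit false

namespace Pool.PT2

theorem Main_INT : SInt := sInt 

theorem Main_KHI : SKhi := sKhi 

theorem Main_MM2 : SMm2 := sMm2 

theorem Main_MM4 : SMm4 := sMm4 

theorem Main_MNK : SMnk := sMnk 

theorem Main_NRM : SNrm := sNrm 

theorem Main_PIG : SPig := sPig 

theorem Main_PRJ : SPrj := sPrj 

theorem Main_TYP : STyp := sTyp 

theorem Main_UPL : SUpl := sUpl Main_NRM

theorem Main_UPM : SUpm := sUpm Main_NRM Main_MM2

theorem Main_UPS : SUps := sUps Main_NRM Main_MM2 Main_MM4 Main_INT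

theorem Main_COT : SCot := sCot Main_KHI Main_MNK Main_NRM

theorem Main_LOW : SLow := sLow Main_NRM

theorem Main_UPP : SUpp := sUpp Main_NRM Main_UPM Main_UPS Main_UPL

theorem Main_FIN : SFin := sFin Main_PRJ Main_LOW Main_TYP Main_PIG Main_UPP

end Pool.PT2
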